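import Mathlib

/-! Shift equivalence over the integers and an explicit primitive matrix. -/

namespace Pool.Agent.Q221.WGSC

open Matrix

/-- Shift equivalence over the integers. -/
def SE {m n : Type} [Fintype m] [DecidableEq m] [Fintype n] [DecidableEq n]
    (A : Matrix m m ℤ) (B : Matrix n n ℤ) : Prop :=
  ∃ (R : Matrix m n ℤ) (S : Matrix n m ℤ) (l : ℕ), 1 ≤ l ∧ A * R = R * B ∧ S * A = B * S ∧
    R * S = A ^ l ∧ S * R = B ^ l

/-- Shift equivalent to a primitive integer matrix of some size. -/
def Good (A : Matrix (Fin 2) (Fin 2) ℤ) : Prop :=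
  ∃ (n : ℕ) (B : Matrix (Fin n) (Fin n) ℤ), 0 < n ∧ B.IsPrimitive ∧ SE A B

/-- The auxiliary sequence. -/
def E (t q s : ℤ) : ℕ → ℤ
  | 0 => 1
  | 1 => -s
  | (n + 2) => t * E t q s (n + 1) + q * E t q s n

/-- The companion sequence. -/
def G (t q s : ℤ) (n : ℕ) : ℤ := E t q s (n + 1) + s * E t q s n

theorem G_rec (t q s : ℤ) (n : ℕ) : G t q s (n + 2) = t * G t q s (n + 1) + q * G t q s n := by
  simp only [G, E]
  ring

theorem G_nonneg {t c s : ℤ} (ht : 0 ≤ t) (hc : 0 ≤ c) (hs : 0 ≤ s) (n : ℕ) :
    0 ≤ G t (s * (t + s) + c) s n := by
  have h : ∀ n, 0 ≤ G t (s * (t + s) + c) s n ∧ 0 ≤ G t (s * (t + s) + c) s (n + 1) := by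
    intro n
    induction n with
    | zero =>
      constructor
      · simp [G, E]
      · have : G t (s * (t + s) + c) s (0 + 1) = c := by simp only [G, E]; ring
        rw [this]; exact hc
    | succ n ih =>
      refine ⟨ih.2, ?_⟩
      rw [G_rec]
      have hq : 0 ≤ s * (t + s) + c := by positivity
      have h1 := mul_nonneg ht ih.2
      have h2 := mul_nonneg hq ih.1
      linarith
  exact (h n).1

theorem G_succ (t c s : ℤ) (n : ℕ) : G t (s * (t + s) + c) s (n + 1) =
    c * E t (s * (t + s) + c) s n + (t + s) * G t (s * (t + s) + c) s n := by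
  simp only [G, E]
  ring

theorem exists_L {t c s : ℤ} (ht : 1 ≤ t) (hc : 1 ≤ c) (hs : 1 ≤ s) :
    ∃ L : ℕ, 1 ≤ L ∧ 0 ≤ E t (s * (t + s) + c) s L ∧ 0 < E t (s * (t + s) + c) s (L + 1) := by
  set q : ℤ := s * (t + s) + c with hq
  have hqc : c ≤ q := by nlinarith
  have hq0 : 0 < q := by linarith
  have key : ∀ j : ℕ, (∃ L : ℕ, 1 ≤ L ∧ 0 ≤ E t q s L ∧ 0 < E t q s (L + 1)) ∨
      (0 < E t q s (2 * j) ∧
        q * (-E t q s (2 * j + 1)) ≤ (s * q - j * (t * c)) * E t q s (2 * j)) := by
    intro j
    induction j with
    | zero =>
      right
      constructor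
      · simp [E]
      · have h1 : E t q s (2 * 0 + 1) = -s := rfl
        have h0 : E t q s (2 * 0) = 1 := rfl
        rw [h1, h0]
        push_cast
        linarith
    | succ j ih =>
      rcases ih with h | ⟨ha, hb⟩
      · exact Or.inl h
      · set a := E t q s (2 * j) with haa
        set x := E t q s (2 * j + 1) with hx
        have e2 : E t q s (2 * j + 2) = t * x + q * a := by rw [E]
        have e3 : E t q s (2 * j + 3) = t * (t * x + q * a) + q * x := by
          rw [show 2 * j + 3 = (2 * j + 1) + 2 from rfl, E]
          rw [show 2 * j + 1 + 1 = 2 * j + 2 from rfl, e2]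
        by_cases hx0 : 0 ≤ x
        · left
          refine ⟨2 * j + 1, by omega, hx0, ?_⟩
          rw [show 2 * j + 1 + 1 = 2 * j + 2 from rfl, e2]
          have h1 := mul_nonneg (by linarith : (0 : ℤ) ≤ t) hx0
          have h2 := mul_pos hq0 ha
          linarith
        · right
          push Not at hx0
          have hj : (0 : ℤ) ≤ (j : ℤ) := by positivity
          set K : ℤ := s * q - j * (t * c) with hK
          have hKs : K ≤ s * q := by
            have : 0 ≤ (j : ℤ) * (t * c) := by positivity
            linarith
          have hK0 : 0 < K := by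
            by_contra hcon
            push Not at hcon
            have h1 : K * a ≤ 0 := mul_nonpos_of_nonpos_of_nonneg hcon ha.le
            have h2 : 0 < q * (-x) := mul_pos hq0 (by linarith)
            linarith
          have hxs : -x ≤ s * a := by
            have h1 : q * (-x) ≤ q * (s * a) := by
              calc q * (-x) ≤ K * a := hb
                _ ≤ (s * q) * a := mul_le_mul_of_nonneg_right hKs ha.le
                _ = q * (s * a) := by ring
            exact le_of_mul_le_mul_left h1 hq0
          have hpos2 : 0 < t * x + q * a := by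
            have h1 : t * (-x) ≤ t * (s * a) := mul_le_mul_of_nonneg_left hxs (by linarith)
            have h2 : 0 < (s * s + c) * a := by positivity
            have h3 : q * a - t * (s * a) = (s * s + c) * a := by rw [hq]; ring
            linarith
          rw [show 2 * (j + 1) = 2 * j + 2 by ring, show 2 * j + 2 + 1 = 2 * j + 3 from rfl, e2, e3]
          refine ⟨hpos2, ?_⟩
          push_cast
          have hK' : s * q - ((j : ℤ) + 1) * (t * c) = K - t * c := by rw [hK]; ring
          rw [hK']
          -- want q * (-(t * (t x + q a) + q x)) ≤ (K - t c) (t x + q a)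
          have hexp : 0 ≤ q * ((K - t * c + q * t) * (q * a - t * (-x)) - q * q * (-x)) := by
            have hbr : 0 ≤ t * (K - t * c + q * t) + q * q := by
              have : 0 ≤ t * (q - c) := mul_nonneg (by linarith) (by linarith)
              have h5 : 0 ≤ K - t * c + q * t := by nlinarith
              have h6 : 0 ≤ t * (K - t * c + q * t) := mul_nonneg (by linarith) h5
              nlinarith
            have h1 : (q * (-x)) * (t * (K - t * c + q * t) + q * q) ≤
                (K * a) * (t * (K - t * c + q * t) + q * q) :=
              mul_le_mul_of_nonneg_right hb hbr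
            have h2 : 0 ≤ q * q * q - c * (q * q) - K * K + t * c * K - q * t * K := by
              have hA : K * K ≤ (s * q) * (s * q) := mul_self_le_mul_self hK0.le hKs
              have hB : K * (t * (q - c)) ≤ (s * q) * (t * (q - c)) :=
                mul_le_mul_of_nonneg_right hKs (mul_nonneg (by linarith) (by linarith))
              have hC : q * q * q - c * (q * q) - (s * q) * (s * q) - (s * q) * (t * (q - c)) =
                  s * q * t * c := by
                have : q * q * q = q * q * (s * (t + s) + c) := by rw [← hq]
                rw [this]; ring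
              have hD : 0 ≤ s * q * t * c := by positivity
              nlinarith
            have h3 : 0 ≤ a * t * (q * q * q - c * (q * q) - K * K + t * c * K - q * t * K) := by
              have : 0 ≤ a * t := mul_nonneg ha.le (by linarith)
              exact mul_nonneg this h2
            have h4 : q * ((K - t * c + q * t) * (q * a - t * (-x)) - q * q * (-x)) =
                a * (q * q * (K - t * c + q * t)) -
                  (q * (-x)) * (t * (K - t * c + q * t) + q * q) := by ring
            have h5 : a * (q * q * (K - t * c + q * t)) -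
                (K * a) * (t * (K - t * c + q * t) + q * q) =
                a * t * (q * q * q - c * (q * q) - K * K + t * c * K - q * t * K) := by ring
            rw [h4]
            linarith
          have hfin : 0 ≤ (K - t * c + q * t) * (q * a - t * (-x)) - q * q * (-x) :=
            nonneg_of_mul_nonneg_right hexp hq0
          have h6 : (K - t * c + q * t) * (q * a - t * (-x)) - q * q * (-x) =
            (K - t * c) * (t * x + q * a) - q * (-(t * (t * x + q * a) + q * x)) := by ring
          rw [h6] at hfin
          linarith
  rcases key ((s * q + 1).toNat) with h | ⟨ha, hb⟩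
  · exact h
  · have hsq : 0 ≤ s * q + 1 := by positivity
    have hcast : (((s * q + 1).toNat : ℕ) : ℤ) = s * q + 1 := Int.toNat_of_nonneg hsq
    set j := (s * q + 1).toNat
    have hneg : s * q - (j : ℤ) * (t * c) < 0 := by
      rw [hcast]
      have : 1 ≤ t * c := by nlinarith
      nlinarith
    have h1 : (s * q - (j : ℤ) * (t * c)) * E t q s (2 * j) < 0 := mul_neg_of_neg_of_pos hneg ha
    have h2 : 0 < E t q s (2 * j + 1) := by
      by_contra hcon
      push Not at hcon
      have : 0 ≤ q * (-E t q s (2 * j + 1)) := mul_nonneg hq0.le (by linarith)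
      linarith
    refine ⟨2 * j + 1, by omega, h2.le, ?_⟩
    rw [show 2 * j + 1 + 1 = 2 * j + 2 from rfl, E]
    have h3 := mul_pos hq0 ha
    have h4 := mul_pos (by linarith : (0 : ℤ) < t) h2
    linarith

end Pool.Agent.Q221.WGSC
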