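import Pool.Agent.Q221.WGSC.Basic

/-! The primitive matrix and the shift equivalence. -/

namespace Pool.Agent.Q221.WGSC

open Matrix

/-- Unit vectors. -/
abbrev e {N : ℕ} (j : Fin N) : Fin N → ℤ := Pi.single j 1

/-- Columns of the primitive matrix. -/
def col (t s b c : ℤ) (l : ℕ) (j : Fin (l + 3)) : Fin (l + 3) → ℤ :=
  if j.val = 0 then t • e 0 + e 1 + e 2
  else if j.val = 1 then (s * (t + s) + c) • e 0 + s • e 2
  else if h : j.val < l + 2 then
    ((b - 1) * G t (s * (t + s) + c) s (j.val - 2)) • e 2 + e ⟨j.val + 1, by omega⟩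
  else ((b - 1) * G t (s * (t + s) + c) s l) • e 2 +
    ((b - 1) * E t (s * (t + s) + c) s (l + 1)) • e 1 +
    ((b - 1) * E t (s * (t + s) + c) s (l + 2)) • e 0

/-- The primitive matrix. -/
def BM (t s b c : ℤ) (l : ℕ) : Matrix (Fin (l + 3)) (Fin (l + 3)) ℤ :=
  Matrix.of fun i j => col t s b c l j i

theorem BM_e (t s b c : ℤ) (l : ℕ) (j : Fin (l + 3)) :
    BM t s b c l *ᵥ e j = col t s b c l j := by
  rw [Matrix.mulVec_single_one]
  rfl

/-- Columns of `R`. -/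
def rcol (t s b c : ℤ) (l : ℕ) (j : Fin (l + 3)) : Fin 2 → ℤ :=
  if j.val = 0 then ![0, 1]
  else if j.val = 1 then ![1, s]
  else ![(b - 1) * E t (s * (t + s) + c) s (j.val - 2), (b - 1) * G t (s * (t + s) + c) s (j.val - 2)]

def RM (t s b c : ℤ) (l : ℕ) : Matrix (Fin 2) (Fin (l + 3)) ℤ :=
  Matrix.of fun i j => rcol t s b c l j i

theorem RM_e (t s b c : ℤ) (l : ℕ) (j : Fin (l + 3)) :
    RM t s b c l *ᵥ e j = rcol t s b c l j := by
  rw [Matrix.mulVec_single_one]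
  rfl

def TM (s : ℤ) (l : ℕ) : Matrix (Fin (l + 3)) (Fin 2) ℤ :=
  Matrix.of fun i j =>
    if j = 0 then e (1 : Fin (l + 3)) i - s * e (0 : Fin (l + 3)) i else e (0 : Fin (l + 3)) i

theorem TM_mul (s : ℤ) (l : ℕ) (x y : ℤ) :
    TM s l *ᵥ ![x, y] = x • e 1 + (y - s * x) • e 0 := by
  ext i
  simp [TM, Matrix.mulVec, dotProduct, Fin.sum_univ_two]
  ring

def AM (t s b c : ℤ) : Matrix (Fin 2) (Fin 2) ℤ := !![-s, b; c, t + s]

theorem AM_mul (t s b c x y : ℤ) : AM t s b c *ᵥ ![x, y] =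
    ![-s * x + b * y, c * x + (t + s) * y] := by
  ext i
  fin_cases i <;> simp [AM, Matrix.mulVec, dotProduct, Fin.sum_univ_two]

theorem fin0 (l : ℕ) : ((0 : Fin (l + 3)).val) = 0 := rfl
theorem fin1 (l : ℕ) : ((1 : Fin (l + 3)).val) = 1 := rfl
theorem fin2 (l : ℕ) : ((2 : Fin (l + 3)).val) = 2 := by
  rw [Fin.val_two]

theorem rcol0 (t s b c : ℤ) (l : ℕ) : rcol t s b c l 0 = ![0, 1] := by
  simp [rcol]

theorem rcol1 (t s b c : ℤ) (l : ℕ) : rcol t s b c l 1 = ![1, s] := by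
  simp [rcol]

theorem rcolv (t s b c : ℤ) (l k : ℕ) (hk : k + 2 < l + 3) :
    rcol t s b c l ⟨k + 2, hk⟩ = ![(b - 1) * E t (s * (t + s) + c) s k,
      (b - 1) * G t (s * (t + s) + c) s k] := by
  simp [rcol]

theorem e2eq (l : ℕ) : (2 : Fin (l + 3)) = ⟨0 + 2, by omega⟩ := by
  apply Fin.ext
  rw [fin2]

theorem rcol2 (t s b c : ℤ) (l : ℕ) : rcol t s b c l 2 = ![(b - 1), 0] := by
  rw [e2eq, rcolv]
  simp [E, G]

/-- every vertex is `0`, `1` or `k + 2`. -/
theorem fin_cases3 {l : ℕ} (j : Fin (l + 3)) :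
    j = 0 ∨ j = 1 ∨ ∃ (k : ℕ) (hk : k + 2 < l + 3), j = ⟨k + 2, hk⟩ := by
  rcases j with ⟨j, hj⟩
  rcases j with _ | _ | k
  · exact Or.inl rfl
  · exact Or.inr (Or.inl rfl)
  · exact Or.inr (Or.inr ⟨k, hj, rfl⟩)

theorem col0 (t s b c : ℤ) (l : ℕ) : col t s b c l 0 = t • e 0 + e 1 + e 2 := by
  simp [col]

theorem col1 (t s b c : ℤ) (l : ℕ) :
    col t s b c l 1 = (s * (t + s) + c) • e 0 + s • e 2 := by
  simp [col]

theorem colv (t s b c : ℤ) (l k : ℕ) (hk : k + 2 < l + 3) (hk' : k + 3 < l + 3) :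
    col t s b c l ⟨k + 2, hk⟩ =
      ((b - 1) * G t (s * (t + s) + c) s k) • e 2 + e ⟨k + 3, hk'⟩ := by
  have h : k + 2 < l + 2 := by omega
  simp only [col]
  rw [if_neg (by omega), if_neg (by omega), dif_pos h]
  rfl

theorem coll (t s b c : ℤ) (l : ℕ) (hk : l + 2 < l + 3) :
    col t s b c l ⟨l + 2, hk⟩ =
      ((b - 1) * G t (s * (t + s) + c) s l) • e 2 +
    ((b - 1) * E t (s * (t + s) + c) s (l + 1)) • e 1 +
    ((b - 1) * E t (s * (t + s) + c) s (l + 2)) • e 0 := by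
  simp only [col]
  rw [if_neg (by omega), if_neg (by omega), dif_neg (by omega)]

/-- intertwining -/
theorem AR_eq (t s b c : ℤ) (l : ℕ) :
    AM t s b c * RM t s b c l = RM t s b c l * BM t s b c l := by
  apply Matrix.ext_of_mulVec_single
  intro j
  change (AM t s b c * RM t s b c l) *ᵥ e j = (RM t s b c l * BM t s b c l) *ᵥ e j
  rw [← Matrix.mulVec_mulVec, ← Matrix.mulVec_mulVec, BM_e, RM_e]
  rcases fin_cases3 j with rfl | rfl | ⟨k, hk, rfl⟩
  · rw [col0, rcol0, AM_mul, Matrix.mulVec_add, Matrix.mulVec_add, Matrix.mulVec_smul,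
      RM_e, RM_e, RM_e, rcol0, rcol1, rcol2]
    ext i
    fin_cases i <;> simp <;> ring
  · rw [col1, rcol1, AM_mul, Matrix.mulVec_add, Matrix.mulVec_smul, Matrix.mulVec_smul,
      RM_e, RM_e, rcol0, rcol2]
    ext i
    fin_cases i <;> simp <;> ring
  · rw [rcolv, AM_mul]
    by_cases hk' : k + 3 < l + 3
    · rw [colv t s b c l k hk hk', Matrix.mulVec_add, Matrix.mulVec_smul, RM_e, RM_e, rcol2]
      rw [show (⟨k + 3, hk'⟩ : Fin (l + 3)) = ⟨(k + 1) + 2, hk'⟩ from rfl, rcolv, G_succ]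
      ext i
      fin_cases i
      · simp [G]
        ring
      · simp
        ring
    · obtain rfl : k = l := by omega
      rw [coll, Matrix.mulVec_add, Matrix.mulVec_add, Matrix.mulVec_smul, Matrix.mulVec_smul,
        Matrix.mulVec_smul, RM_e, RM_e, RM_e, rcol0, rcol1, rcol2]
      ext i
      fin_cases i
      · simp [G]
        ring
      · simp [G, E]
        ring

theorem RT_eq (t s b c : ℤ) (l : ℕ) : RM t s b c l * TM s l = 1 := by
  apply Matrix.ext_of_mulVec_single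
  intro j
  rw [← Matrix.mulVec_mulVec, Matrix.one_mulVec]
  fin_cases j
  · have : (Pi.single (0 : Fin 2) (1 : ℤ) : Fin 2 → ℤ) = ![1, 0] := by
      ext i; fin_cases i <;> simp
    simp only [Fin.zero_eta]
    rw [this, TM_mul, Matrix.mulVec_add, Matrix.mulVec_smul, Matrix.mulVec_smul, RM_e, RM_e,
      rcol0, rcol1]
    ext i
    fin_cases i <;> simp
  · have : (Pi.single (1 : Fin 2) (1 : ℤ) : Fin 2 → ℤ) = ![0, 1] := by
      ext i; fin_cases i <;> simp
    simp only [Fin.mk_one]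
    rw [this, TM_mul, Matrix.mulVec_add, Matrix.mulVec_smul, Matrix.mulVec_smul, RM_e, RM_e,
      rcol0, rcol1]
    ext i
    fin_cases i <;> simp

/-- kernel vectors -/
def kap (t s b c : ℤ) (l k : ℕ) : Fin (l + 3) → ℤ :=
  if h : k + 2 < l + 3 then
    e ⟨k + 2, h⟩ - ((b - 1) * E t (s * (t + s) + c) s k) • e 1 -
      ((b - 1) * E t (s * (t + s) + c) s (k + 1)) • e 0
  else 0

theorem B_kap (t s b c : ℤ) (l k : ℕ) :
    BM t s b c l *ᵥ kap t s b c l k = kap t s b c l (k + 1) := by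
  by_cases hk : k + 2 < l + 3
  · rw [kap, dif_pos hk, Matrix.mulVec_sub, Matrix.mulVec_sub, Matrix.mulVec_smul,
      Matrix.mulVec_smul, BM_e, BM_e, BM_e, col0, col1]
    by_cases hk' : k + 3 < l + 3
    · rw [kap, dif_pos (show k + 1 + 2 < l + 3 by omega), colv t s b c l k hk hk']
      rw [show (⟨k + 3, hk'⟩ : Fin (l + 3)) = ⟨k + 1 + 2, hk'⟩ from rfl]
      simp only [G, E]
      module
    · obtain rfl : k = l := by omega
      rw [kap, dif_neg (by omega), coll]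
      simp only [G, E]
      module
  · rw [kap, dif_neg hk, kap, dif_neg (by omega), Matrix.mulVec_zero]

theorem Bpow_kap (t s b c : ℤ) (l k m : ℕ) :
    (BM t s b c l) ^ m *ᵥ kap t s b c l k = kap t s b c l (k + m) := by
  induction m with
  | zero => simp
  | succ m ih => rw [pow_succ', ← Matrix.mulVec_mulVec, ih, B_kap]; rfl

theorem B_kill (t s b c : ℤ) (l : ℕ) :
    (BM t s b c l) ^ (l + 1) * (TM s l * RM t s b c l - 1) = 0 := by
  apply Matrix.ext_of_mulVec_single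
  intro j
  change _ *ᵥ e j = _ *ᵥ e j
  rw [← Matrix.mulVec_mulVec, Matrix.sub_mulVec, Matrix.one_mulVec, ← Matrix.mulVec_mulVec,
    RM_e, Matrix.zero_mulVec]
  rcases fin_cases3 j with rfl | rfl | ⟨k, hk, rfl⟩
  · rw [rcol0, TM_mul]
    have : (0 : ℤ) • e (1 : Fin (l + 3)) + (1 - s * 0) • e (0 : Fin (l + 3)) - e 0 = 0 := by
      module
    rw [this, Matrix.mulVec_zero]
  · rw [rcol1, TM_mul]
    have : (1 : ℤ) • e (1 : Fin (l + 3)) + (s - s * 1) • e (0 : Fin (l + 3)) - e 1 = 0 := by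
      module
    rw [this, Matrix.mulVec_zero]
  · rw [rcolv, TM_mul]
    have : ((b - 1) * E t (s * (t + s) + c) s k) • e (1 : Fin (l + 3)) +
        ((b - 1) * G t (s * (t + s) + c) s k - s * ((b - 1) * E t (s * (t + s) + c) s k)) •
          e (0 : Fin (l + 3)) - e ⟨k + 2, hk⟩ = - kap t s b c l k := by
      rw [kap, dif_pos hk]
      simp only [G]
      module
    rw [this, Matrix.mulVec_neg, Bpow_kap, kap, dif_neg (by omega), neg_zero]

/-- general criterion -/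
theorem SE_of_kill {m n : Type} [Fintype m] [DecidableEq m] [Fintype n] [DecidableEq n]
    {A : Matrix m m ℤ} {B : Matrix n n ℤ} {R : Matrix m n ℤ} {T : Matrix n m ℤ} {k : ℕ}
    (hk : 1 ≤ k) (h1 : A * R = R * B) (h2 : R * T = 1) (h3 : B ^ k * (T * R - 1) = 0) :
    SE A B := by
  have h3' : B ^ k * (T * R) = B ^ k := by
    rw [Matrix.mul_sub, Matrix.mul_one, sub_eq_zero] at h3
    exact h3
  have hp : ∀ j : ℕ, R * B ^ j = A ^ j * R := by
    intro j
    induction j with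
    | zero => simp
    | succ j ih => rw [pow_succ, ← Matrix.mul_assoc, ih, Matrix.mul_assoc, ← h1, pow_succ,
        Matrix.mul_assoc]
  refine ⟨R, B ^ k * T, k, hk, h1, ?_, ?_, ?_⟩
  · calc B ^ k * T * A = B ^ k * T * A * (R * T) := by rw [h2, Matrix.mul_one]
      _ = B ^ k * (T * (A * R)) * T := by simp only [Matrix.mul_assoc]
      _ = B ^ k * (T * R) * (B * T) := by rw [h1]; simp only [Matrix.mul_assoc]
      _ = B ^ k * (B * T) := by rw [h3']
      _ = B * (B ^ k * T) := by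
        rw [← Matrix.mul_assoc, ← Matrix.mul_assoc, ← pow_succ, ← pow_succ']
  · rw [← Matrix.mul_assoc, hp, Matrix.mul_assoc, h2, Matrix.mul_one]
  · rw [Matrix.mul_assoc, h3']

end Pool.Agent.Q221.WGSC
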