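import Pool.Agent.Q221.WGSC.Mat

/-! Primitivity of the matrix. -/

namespace Pool.Agent.Q221.WGSC

open Matrix Filter

theorem pow_nonneg' {N : ℕ} {B : Matrix (Fin N) (Fin N) ℤ} (hB : ∀ i j, 0 ≤ B i j) (m : ℕ) :
    ∀ i j, 0 ≤ (B ^ m) i j := by
  induction m with
  | zero =>
    intro i j
    rw [pow_zero, Matrix.one_apply]
    split_ifs <;> norm_num
  | succ m ih =>
    intro i j
    rw [pow_succ, Matrix.mul_apply]
    exact Finset.sum_nonneg fun k _ => mul_nonneg (ih i k) (hB k j)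

theorem pow_pos_trans {N : ℕ} {B : Matrix (Fin N) (Fin N) ℤ} (hB : ∀ i j, 0 ≤ B i j)
    {m n : ℕ} {i k j : Fin N} (h1 : 0 < (B ^ m) i k) (h2 : 0 < (B ^ n) k j) :
    0 < (B ^ (m + n)) i j := by
  rw [pow_add, Matrix.mul_apply]
  have : (B ^ m) i k * (B ^ n) k j ≤ ∑ x, (B ^ m) i x * (B ^ n) x j :=
    Finset.single_le_sum (f := fun x => (B ^ m) i x * (B ^ n) x j)
      (fun x _ => mul_nonneg (pow_nonneg' hB m i x) (pow_nonneg' hB n x j)) (Finset.mem_univ k)
  exact lt_of_lt_of_le (mul_pos h1 h2) this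

/-- criterion for primitivity -/
theorem prim_of_reach {N : ℕ} (B : Matrix (Fin N) (Fin N) ℤ) (z : Fin N)
    (hB : ∀ i j, 0 ≤ B i j) (hz : 0 < B z z)
    (h1 : ∀ j, ∃ m : ℕ, 0 < (B ^ m) z j) (h2 : ∀ i, ∃ m : ℕ, 0 < (B ^ m) i z) :
    B.IsPrimitive := by
  have hz1 : 0 < (B ^ 1) z z := by rwa [pow_one]
  have e1 : ∀ j, ∀ᶠ m in atTop, 0 < (B ^ m) z j := by
    intro j
    obtain ⟨m, hm⟩ := h1 j
    rw [eventually_atTop]
    refine ⟨m, fun k hk => ?_⟩
    induction k, hk using Nat.le_induction with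
    | base => exact hm
    | succ k _ ih => rw [add_comm]; exact pow_pos_trans hB hz1 ih
  have e2 : ∀ i, ∀ᶠ m in atTop, 0 < (B ^ m) i z := by
    intro i
    obtain ⟨m, hm⟩ := h2 i
    rw [eventually_atTop]
    refine ⟨m, fun k hk => ?_⟩
    induction k, hk using Nat.le_induction with
    | base => exact hm
    | succ k _ ih => exact pow_pos_trans hB ih hz1
  obtain ⟨m, hm1, hm2, hm3⟩ :=
    ((eventually_all.2 e1).and ((eventually_all.2 e2).and (eventually_ge_atTop 1))).exists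
  exact ⟨hB, m + m, by omega, fun i j => pow_pos_trans hB (hm2 i) (hm1 j)⟩

theorem single_nonneg {N : ℕ} (j i : Fin N) : 0 ≤ (e j : Fin N → ℤ) i := by
  simp only [e, Pi.single_apply]
  split_ifs <;> norm_num

theorem col_nonneg {t s b c : ℤ} (ht : 1 ≤ t) (hs : 1 ≤ s) (hb : 2 ≤ b) (hc : 1 ≤ c) (l : ℕ)
    (hE1 : 0 ≤ E t (s * (t + s) + c) s (l + 1)) (hE2 : 0 < E t (s * (t + s) + c) s (l + 2))
    (j i : Fin (l + 3)) : 0 ≤ col t s b c l j i := by
  have hq : 0 ≤ s * (t + s) + c := by positivity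
  have hb1 : 0 ≤ b - 1 := by linarith
  have hG : ∀ n, 0 ≤ (b - 1) * G t (s * (t + s) + c) s n := fun n =>
    mul_nonneg hb1 (G_nonneg (by linarith) (by linarith) (by linarith) n)
  have hs0 : 0 ≤ s := by linarith
  have ht0 : 0 ≤ t := by linarith
  have h1 := mul_nonneg hb1 hE1
  have h2 := mul_nonneg hb1 hE2.le
  rcases fin_cases3 j with rfl | rfl | ⟨k, hk, rfl⟩
  · rw [col0]
    simp only [Pi.add_apply, Pi.smul_apply, smul_eq_mul]
    exact add_nonneg (add_nonneg (mul_nonneg ht0 (single_nonneg _ i)) (single_nonneg _ i))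
      (single_nonneg _ i)
  · rw [col1]
    simp only [Pi.add_apply, Pi.smul_apply, smul_eq_mul]
    exact add_nonneg (mul_nonneg hq (single_nonneg _ i)) (mul_nonneg hs0 (single_nonneg _ i))
  · by_cases hk' : k + 3 < l + 3
    · rw [colv t s b c l k hk hk']
      simp only [Pi.add_apply, Pi.smul_apply, smul_eq_mul]
      exact add_nonneg (mul_nonneg (hG k) (single_nonneg _ i)) (single_nonneg _ i)
    · obtain rfl : k = l := by omega
      rw [coll]
      simp only [Pi.add_apply, Pi.smul_apply, smul_eq_mul]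
      exact add_nonneg (add_nonneg (mul_nonneg (hG _) (single_nonneg _ i))
        (mul_nonneg h1 (single_nonneg _ i))) (mul_nonneg h2 (single_nonneg _ i))

theorem BM_prim {t s b c : ℤ} (ht : 1 ≤ t) (hs : 1 ≤ s) (hb : 2 ≤ b) (hc : 1 ≤ c) (l : ℕ)
    (hE1 : 0 ≤ E t (s * (t + s) + c) s (l + 1)) (hE2 : 0 < E t (s * (t + s) + c) s (l + 2)) :
    (BM t s b c l).IsPrimitive := by
  have hB : ∀ i j, 0 ≤ BM t s b c l i j := fun i j => col_nonneg ht hs hb hc l hE1 hE2 j i
  have hq : 0 < s * (t + s) + c := by positivity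
  have h20 : (2 : Fin (l + 3)) ≠ 0 := by
    intro h; have := congrArg Fin.val h; rw [fin2, fin0] at this; omega
  have h21 : (2 : Fin (l + 3)) ≠ 1 := by
    intro h; have := congrArg Fin.val h; rw [fin2, fin1] at this; omega
  have h10 : (1 : Fin (l + 3)) ≠ 0 := by
    intro h; have := congrArg Fin.val h; rw [fin1, fin0] at this; omega
  have b00 : 0 < BM t s b c l 0 0 := by
    change 0 < col t s b c l 0 0
    rw [col0]
    simp only [Pi.add_apply, Pi.smul_apply, smul_eq_mul, Pi.single_apply, if_neg h10.symm,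
      if_neg h20.symm, if_true]
    linarith
  have b10 : 0 < BM t s b c l 1 0 := by
    change 0 < col t s b c l 0 1
    rw [col0]
    simp only [Pi.add_apply, Pi.smul_apply, smul_eq_mul, Pi.single_apply, if_neg h10,
      if_neg h21.symm, if_true]
    norm_num
  have b20 : 0 < BM t s b c l 2 0 := by
    change 0 < col t s b c l 0 2
    rw [col0]
    simp only [Pi.add_apply, Pi.smul_apply, smul_eq_mul, Pi.single_apply, if_neg h20,
      if_neg h21, if_true]
    norm_num
  have b01 : 0 < BM t s b c l 0 1 := by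
    change 0 < col t s b c l 1 0
    rw [col1]
    simp only [Pi.add_apply, Pi.smul_apply, smul_eq_mul, Pi.single_apply,
      if_neg h20.symm, if_true]
    linarith
  have bv : ∀ (k : ℕ) (hk : k + 2 < l + 3) (hk' : k + 3 < l + 3),
      0 < BM t s b c l ⟨k + 3, hk'⟩ ⟨k + 2, hk⟩ := by
    intro k hk hk'
    change 0 < col t s b c l ⟨k + 2, hk⟩ ⟨k + 3, hk'⟩
    rw [colv t s b c l k hk hk']
    simp only [Pi.add_apply, Pi.smul_apply, smul_eq_mul, Pi.single_apply, if_true]
    have : (⟨k + 3, hk'⟩ : Fin (l + 3)) ≠ 2 := by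
      intro h; have := congrArg Fin.val h; rw [fin2] at this; simp at this
    rw [if_neg this]
    norm_num
  have bl : 0 < BM t s b c l 0 ⟨l + 2, by omega⟩ := by
    change 0 < col t s b c l ⟨l + 2, by omega⟩ 0
    rw [coll]
    simp only [Pi.add_apply, Pi.smul_apply, smul_eq_mul, Pi.single_apply, if_neg h10.symm,
      if_neg h20.symm, if_true]
    have : 0 < (b - 1) * E t (s * (t + s) + c) s (l + 2) := mul_pos (by linarith) hE2
    linarith
  have r1 : ∀ (d k : ℕ) (hk : k + 2 < l + 3), k + d = l →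
      0 < ((BM t s b c l) ^ (d + 1)) 0 ⟨k + 2, hk⟩ := by
    intro d
    induction d with
    | zero =>
      intro k hk hkd
      obtain rfl : k = l := by omega
      rw [zero_add, pow_one]
      exact bl
    | succ d ih =>
      intro k hk hkd
      have hk' : k + 3 < l + 3 := by omega
      have h3 := ih (k + 1) hk' (by omega)
      have h4 : 0 < ((BM t s b c l) ^ 1) ⟨k + 1 + 2, hk'⟩ ⟨k + 2, hk⟩ := by
        rw [pow_one]; exact bv k hk hk'
      exact pow_pos_trans hB h3 h4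
  have r2 : ∀ (k : ℕ) (hk : k + 2 < l + 3), 0 < ((BM t s b c l) ^ (k + 1)) ⟨k + 2, hk⟩ 0 := by
    intro k
    induction k with
    | zero =>
      intro hk
      rw [zero_add, pow_one]
      have := b20
      rw [e2eq] at this
      exact this
    | succ k ih =>
      intro hk
      have h3 := ih (by omega)
      have h4 : 0 < ((BM t s b c l) ^ 1) ⟨k + 1 + 2, hk⟩ ⟨k + 2, by omega⟩ := by
        rw [pow_one]; exact bv k (by omega) hk
      have h5 := pow_pos_trans hB h4 h3
      rw [add_comm 1 (k + 1)] at h5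
      exact h5
  refine prim_of_reach _ 0 hB b00 ?_ ?_
  · intro j
    rcases fin_cases3 j with rfl | rfl | ⟨k, hk, rfl⟩
    · exact ⟨1, by rw [pow_one]; exact b00⟩
    · exact ⟨1, by rw [pow_one]; exact b01⟩
    · exact ⟨_, r1 (l - k) k hk (by omega)⟩
  · intro j
    rcases fin_cases3 j with rfl | rfl | ⟨k, hk, rfl⟩
    · exact ⟨1, by rw [pow_one]; exact b00⟩
    · exact ⟨1, by rw [pow_one]; exact b10⟩
    · exact ⟨_, r2 k hk⟩

theorem good_AM {t s b c : ℤ} (ht : 1 ≤ t) (hs : 1 ≤ s) (hb : 2 ≤ b) (hc : 1 ≤ c) :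
    Good (AM t s b c) := by
  obtain ⟨L, hL, h1, h2⟩ := exists_L ht hc hs
  obtain ⟨l, rfl⟩ : ∃ l, L = l + 1 := ⟨L - 1, by omega⟩
  exact ⟨l + 3, BM t s b c l, by omega, BM_prim ht hs hb hc l h1 h2,
    SE_of_kill (by omega : 1 ≤ l + 1) (AR_eq t s b c l) (RT_eq t s b c l) (B_kill t s b c l)⟩

end Pool.Agent.Q221.WGSC
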