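import Pool.Agent.Q221.WGSC.Prim

/-! Reduction of integer two by two matrices. -/

namespace Pool.Agent.Q221.WGSC

open Matrix

theorem good_conj {A P Q : Matrix (Fin 2) (Fin 2) ℤ} (hPQ : P * Q = 1) (hQP : Q * P = 1)
    (h : Good (Q * A * P)) : Good A := by
  obtain ⟨n, B, hn, hB, R, S, l, hl, h1, h2, h3, h4⟩ := h
  refine ⟨n, B, hn, hB, P * R, S * Q, l, hl, ?_, ?_, ?_, ?_⟩
  · calc A * (P * R) = (P * Q) * A * (P * R) := by rw [hPQ, Matrix.one_mul]
      _ = P * (Q * A * P * R) := by simp only [Matrix.mul_assoc]
      _ = P * R * B := by rw [h1, Matrix.mul_assoc]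
  · calc S * Q * A = S * Q * A * (P * Q) := by rw [hPQ, Matrix.mul_one]
      _ = S * (Q * A * P) * Q := by simp only [Matrix.mul_assoc]
      _ = B * (S * Q) := by rw [h2, Matrix.mul_assoc]
  · have hp : ∀ k : ℕ, P * (Q * A * P) ^ k * Q = A ^ k := by
      intro k
      induction k with
      | zero => rw [pow_zero, pow_zero, Matrix.mul_one, hPQ]
      | succ k ih =>
        calc P * (Q * A * P) ^ (k + 1) * Q = P * (Q * A * P) ^ k * Q * A * (P * Q) := by
              rw [pow_succ]; simp only [Matrix.mul_assoc]
          _ = A ^ (k + 1) := by rw [ih, hPQ, Matrix.mul_one, pow_succ]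
    calc P * R * (S * Q) = P * (R * S) * Q := by simp only [Matrix.mul_assoc]
      _ = A ^ l := by rw [h3, hp]
  · calc S * Q * (P * R) = S * (Q * P) * R := by simp only [Matrix.mul_assoc]
      _ = B ^ l := by rw [hQP, Matrix.mul_one, h4]

theorem good_nonneg {a b c d : ℤ} (ha : 0 ≤ a) (hd : 0 ≤ d) (hb : 0 < b) (hc : 0 < c)
    (ht : 1 ≤ a + d) : Good !![a, b; c, d] := by
  refine ⟨2, !![a, b; c, d], by omega, ⟨?_, 2, by omega, ?_⟩, 1, !![a, b; c, d], 1, le_rfl,
    by simp, rfl, by simp, by simp⟩
  · intro i j
    fin_cases i <;> fin_cases j <;> simp <;> linarith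
  · have h2 : !![a, b; c, d] ^ 2 = !![a * a + b * c, b * (a + d); c * (a + d), b * c + d * d] := by
      rw [pow_two, Matrix.mul_fin_two]
      ext i j
      fin_cases i <;> fin_cases j <;> simp <;> ring
    have hbc : 0 < b * c := mul_pos hb hc
    have h3 : 0 < b * (a + d) := mul_pos hb (by linarith)
    have h4 : 0 < c * (a + d) := mul_pos hc (by linarith)
    have h5 : 0 ≤ a * a := mul_self_nonneg a
    have h6 : 0 ≤ d * d := mul_self_nonneg d
    rw [h2]
    intro i j
    fin_cases i <;> fin_cases j <;> simp <;> linarith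

theorem good_neg {a b c d : ℤ} (ha : a < 0) (hb : 0 < b) (hc : 0 < c) (ht : 1 ≤ a + d) :
    Good !![a, b; c, d] := by
  by_cases hb2 : 2 ≤ b
  · have h := good_AM (t := a + d) (s := -a) (b := b) (c := c) ht (by linarith) hb2 (by linarith)
    have h2 : AM (a + d) (-a) b c = !![a, b; c, d] := by
      simp [AM]
    rwa [h2] at h
  · obtain rfl : b = 1 := by omega
    refine good_conj (P := !![0, 1; 1, d]) (Q := !![-d, 1; 1, 0]) ?_ ?_ ?_
    · rw [Matrix.mul_fin_two, Matrix.one_fin_two]
      simp
    · rw [Matrix.mul_fin_two, Matrix.one_fin_two]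
      simp
    · have h : !![-d, 1; 1, 0] * !![a, 1; c, d] * !![0, 1; 1, d] =
          !![0, c - d * a; 1, a + d] := by
        rw [Matrix.mul_fin_two, Matrix.mul_fin_two]
        ext i j
        fin_cases i <;> fin_cases j <;> simp <;> ring
      rw [h]
      have hd : 0 < d := by linarith
      have : 0 < d * (-a) := mul_pos hd (by linarith)
      exact good_nonneg le_rfl (by linarith) (by linarith) one_pos (by linarith)

theorem good_pos {a b c d : ℤ} (hb : 0 < b) (hc : 0 < c) (ht : 1 ≤ a + d) :
    Good !![a, b; c, d] := by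
  by_cases ha : a < 0
  · exact good_neg ha hb hc ht
  · by_cases hd : d < 0
    · refine good_conj (P := !![0, 1; 1, 0]) (Q := !![0, 1; 1, 0]) ?_ ?_ ?_
      · rw [Matrix.mul_fin_two, Matrix.one_fin_two]
        simp
      · rw [Matrix.mul_fin_two, Matrix.one_fin_two]
        simp
      · have h : !![0, 1; 1, 0] * !![a, b; c, d] * !![0, 1; 1, 0] = !![d, c; b, a] := by
          rw [Matrix.mul_fin_two, Matrix.mul_fin_two]
          ext i j
          fin_cases i <;> fin_cases j <;> simp
        rw [h]
        exact good_neg hd hc hb (by linarith)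
    · exact good_nonneg (by linarith) (by linarith) hb hc ht

theorem conj_upper (a b c d x : ℤ) : !![1, -x; 0, 1] * !![a, b; c, d] * !![1, x; 0, 1] =
    !![a - x * c, (a - x * c) * x + b - x * d; c, c * x + d] := by
  rw [Matrix.mul_fin_two, Matrix.mul_fin_two]
  ext i j
  fin_cases i <;> fin_cases j <;> simp <;> ring

theorem conj_lower (a b c d y : ℤ) : !![1, 0; -y, 1] * !![a, b; c, d] * !![1, 0; y, 1] =
    !![a + b * y, b; c + d * y - y * (a + b * y), d - y * b] := by
  rw [Matrix.mul_fin_two, Matrix.mul_fin_two]
  ext i j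
  fin_cases i <;> fin_cases j <;> simp <;> ring

theorem good_main : ∀ (N : ℕ) (a b c d : ℤ), (d - a).natAbs = N → 1 ≤ a + d →
    0 < (d - a) ^ 2 + 4 * (b * c) →
    (∀ k : ℤ, k ^ 2 - (a + d) * k + (a * d - b * c) ≠ 0) → Good !![a, b; c, d] := by
  intro N
  induction N using Nat.strong_induction_on with
  | _ N ih =>
    intro a b c d hN ht hD hk
    have hb0 : b ≠ 0 := by
      rintro rfl
      exact hk a (by ring)
    have hc0 : c ≠ 0 := by
      rintro rfl
      exact hk a (by ring)
    have up : ∀ x : ℤ, (c * x + d - (a - x * c)).natAbs < N → Good !![a, b; c, d] := by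
      intro x hx
      refine good_conj (P := !![1, x; 0, 1]) (Q := !![1, -x; 0, 1]) ?_ ?_ ?_
      · rw [Matrix.mul_fin_two, Matrix.one_fin_two]
        simp
      · rw [Matrix.mul_fin_two, Matrix.one_fin_two]
        simp
      · rw [conj_upper]
        refine ih _ hx _ _ _ _ rfl ?_ ?_ ?_
        · have : a - x * c + (c * x + d) = a + d := by ring
          rw [this]; exact ht
        · have : (c * x + d - (a - x * c)) ^ 2 + 4 * (((a - x * c) * x + b - x * d) * c) =
            (d - a) ^ 2 + 4 * (b * c) := by ring
          rw [this]; exact hD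
        · intro k hk0
          apply hk k
          rw [← hk0]
          ring
    have lo : ∀ y : ℤ, (d - y * b - (a + b * y)).natAbs < N → Good !![a, b; c, d] := by
      intro y hy
      refine good_conj (P := !![1, 0; y, 1]) (Q := !![1, 0; -y, 1]) ?_ ?_ ?_
      · rw [Matrix.mul_fin_two, Matrix.one_fin_two]
        simp
      · rw [Matrix.mul_fin_two, Matrix.one_fin_two]
        simp
      · rw [conj_lower]
        refine ih _ hy _ _ _ _ rfl ?_ ?_ ?_
        · have : a + b * y + (d - y * b) = a + d := by ring
          rw [this]; exact ht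
        · have : (d - y * b - (a + b * y)) ^ 2 + 4 * (b * (c + d * y - y * (a + b * y))) =
            (d - a) ^ 2 + 4 * (b * c) := by ring
          rw [this]; exact hD
        · intro k hk0
          apply hk k
          rw [← hk0]
          ring
    rcases lt_or_gt_of_ne hb0 with hb | hb <;> rcases lt_or_gt_of_ne hc0 with hc | hc
    · refine good_conj (P := !![1, 0; 0, -1]) (Q := !![1, 0; 0, -1]) ?_ ?_ ?_
      · rw [Matrix.mul_fin_two, Matrix.one_fin_two]
        simp
      · rw [Matrix.mul_fin_two, Matrix.one_fin_two]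
        simp
      · have h : !![1, 0; 0, -1] * !![a, b; c, d] * !![1, 0; 0, -1] = !![a, -b; -c, d] := by
          rw [Matrix.mul_fin_two, Matrix.mul_fin_two]
          ext i j
          fin_cases i <;> fin_cases j <;> simp
        rw [h]
        exact good_pos (by linarith) (by linarith) ht
    · -- b < 0 < c
      have hlt : c < |d - a| ∨ -b < |d - a| := by
        by_contra hcon
        push Not at hcon
        have h1 : |d - a| * |d - a| ≤ c * (-b) :=
          mul_le_mul hcon.1 hcon.2 (abs_nonneg _) hc.le
        rw [abs_mul_abs_self] at h1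
        have : 0 ≤ c * (-b) := mul_nonneg hc.le (by linarith)
        nlinarith
      rcases hlt with h | h
      · rcases le_total 0 (d - a) with hs | hs
        · rw [abs_of_nonneg hs] at h
          exact up (-1) (by omega)
        · rw [abs_of_nonpos hs] at h
          exact up 1 (by omega)
      · rcases le_total 0 (d - a) with hs | hs
        · rw [abs_of_nonneg hs] at h
          exact lo (-1) (by omega)
        · rw [abs_of_nonpos hs] at h
          exact lo 1 (by omega)
    · -- c < 0 < b
      have hlt : -c < |d - a| ∨ b < |d - a| := by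
        by_contra hcon
        push Not at hcon
        have h1 : |d - a| * |d - a| ≤ (-c) * b :=
          mul_le_mul hcon.1 hcon.2 (abs_nonneg _) (by linarith)
        rw [abs_mul_abs_self] at h1
        have : 0 ≤ (-c) * b := mul_nonneg (by linarith) hb.le
        nlinarith
      rcases hlt with h | h
      · rcases le_total 0 (d - a) with hs | hs
        · rw [abs_of_nonneg hs] at h
          exact up 1 (by omega)
        · rw [abs_of_nonpos hs] at h
          exact up (-1) (by omega)
      · rcases le_total 0 (d - a) with hs | hs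
        · rw [abs_of_nonneg hs] at h
          exact lo 1 (by omega)
        · rw [abs_of_nonpos hs] at h
          exact lo (-1) (by omega)
    · exact good_pos hb hc ht

end Pool.Agent.Q221.WGSC
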